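import Mathlib.Topology.ContinuousMap.Compact
import Mathlib.Topology.UnitInterval

namespace Pool.Agent.Work.MP_f4f44f_al

/-- The topology of uniform convergence on the group `T(A)` of self-homeomorphisms of a compact
metric space `A`: the topology induced from the space `C(A, A)` of continuous self-maps, whose
metric is `dist f g = ⨆ p, dist (f p) (g p)`. -/
@[reducible] def unifTop (A : Type) [MetricSpace A] [CompactSpace A] :
    TopologicalSpace (A ≃ₜ A) :=
  TopologicalSpace.induced (fun f : A ≃ₜ A => (⟨f, f.continuous⟩ : C(A, A))) inferInstance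

/-- The arc component `T(A)*` of the identity: the identity together with all `φ` such that some
arc in `T(A)` (the image of a topological embedding of `[0,1]`) has endpoints `1` and `φ`. -/
def arcComponent (A : Type) [MetricSpace A] [CompactSpace A] : Set (A ≃ₜ A) :=
  {φ | φ = 1 ∨ ∃ γ : unitInterval → (A ≃ₜ A),
    @Topology.IsEmbedding unitInterval (A ≃ₜ A) inferInstance (unifTop A) γ ∧ γ 0 = 1 ∧ γ 1 = φ}

end Pool.Agent.Work.MP_f4f44f_al
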