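import Pool.Agent.Work.MP_f4f44f_al.Defs
import Pool.Agent.Lib.BorsukUlam.Basic
import Mathlib.Topology.Separation.Lemmas
import Mathlib.Topology.Metrizable.Basic
import Mathlib.Topology.Metrizable.Uniformity
import Mathlib.Analysis.SpecificLimits.Basic

namespace Pool.Agent.Work.MP_f4f44f_al

open Set Topology Filter

/-- The ambient space. -/
abbrev P : Type := (ℕ × ℕ → ℝ) × (ℕ → ℝ) × ℝ

/-- The Hilbert cube. -/
def Q : Set (ℕ → ℝ) := {x | ∀ i, |x i| ≤ 1}

theorem isCompact_Q : IsCompact Q := by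
  have : Q = Set.pi univ (fun _ => Icc (-1 : ℝ) 1) := by
    ext x; simp only [Q, abs_le, mem_ofPred_eq, Set.mem_pi, mem_univ, forall_const, mem_Icc]
  rw [this]
  exact isCompact_univ_pi (fun _ => isCompact_Icc)

theorem exists_d : ∃ d : ℕ → ℕ → ℝ, (∀ n, d n ∈ Q) ∧
    ∀ x ∈ Q, (x, (0 : ℝ)) ∈ closure (range fun n : ℕ => (d n, 1 / ((n : ℝ) + 1))) := by
  have : Nonempty Q := ⟨⟨0, fun i => by simp⟩⟩
  let u : ℕ → Q := TopologicalSpace.denseSeq Q
  have hu : DenseRange u := TopologicalSpace.denseRange_denseSeq Q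
  refine ⟨fun n => (u (Nat.unpair n).1).1, fun n => (u _).2, ?_⟩
  intro x hx
  have h1 : ∀ m, ((u m).1, (0 : ℝ)) ∈
      closure (range fun n : ℕ => ((u (Nat.unpair n).1).1, 1 / ((n : ℝ) + 1))) := by
    intro m
    refine mem_closure_of_tendsto (b := atTop)
      (f := fun k : ℕ => ((u m).1, 1 / (((Nat.pair m k : ℕ) : ℝ) + 1))) ?_ ?_
    · refine tendsto_const_nhds.prodMk_nhds ?_
      refine tendsto_one_div_add_atTop_nhds_zero_nat.comp ?_
      exact tendsto_atTop_mono (fun k => Nat.right_le_pair m k) tendsto_id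
    · exact Eventually.of_forall fun k => ⟨Nat.pair m k, by simp⟩
  have h2 : Continuous fun y : Q => (y.1, (0 : ℝ)) := by fun_prop
  have h3 := hu.induction_on (p := fun y : Q => (y.1, (0 : ℝ)) ∈
      closure (range fun n : ℕ => ((u (Nat.unpair n).1).1, 1 / ((n : ℝ) + 1)))) ⟨x, hx⟩
      (IsClosed.preimage (t := closure
        (range fun n : ℕ => ((u (Nat.unpair n).1).1, 1 / ((n : ℝ) + 1)))) h2 isClosed_closure) h1
  exact h3

/-- A tail-dense sequence in the Hilbert cube. -/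
noncomputable def d : ℕ → ℕ → ℝ := exists_d.choose

theorem d_mem (n : ℕ) : d n ∈ Q := exists_d.choose_spec.1 n

theorem d_dense {x : ℕ → ℝ} (hx : x ∈ Q) :
    (x, (0 : ℝ)) ∈ closure (range fun n : ℕ => (d n, 1 / ((n : ℝ) + 1))) :=
  exists_d.choose_spec.2 x hx

/-- The base: the cube at height zero together with isolated points. -/
def Z : Set ((ℕ → ℝ) × ℝ) :=
  {z | (z.1 ∈ Q ∧ z.2 = 0) ∨ ∃ n : ℕ, z = (d n, 1 / ((n : ℝ) + 1))}

theorem Z_fst {z : (ℕ → ℝ) × ℝ} (hz : z ∈ Z) : z.1 ∈ Q := by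
  rcases hz with h | ⟨n, rfl⟩
  · exact h.1
  · exact d_mem n

theorem isCompact_Z : IsCompact Z := by
  have h1 : Z = ⋂ N : ℕ, (Q ×ˢ Icc (0 : ℝ) (1 / ((N : ℝ) + 1)) ∪
      (fun n : ℕ => (d n, 1 / ((n : ℝ) + 1))) '' (Iio N)) := by
    ext z
    simp only [mem_iInter]
    constructor
    · rintro (h | ⟨n, rfl⟩) N
      · left
        refine ⟨h.1, by rw [h.2], ?_⟩
        rw [h.2]; positivity
      · by_cases hn : n < N
        · exact Or.inr ⟨n, hn, rfl⟩
        · left
          refine ⟨d_mem n, by positivity, ?_⟩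
          have : (N : ℝ) ≤ n := by exact_mod_cast not_lt.1 hn
          exact one_div_le_one_div_of_le (by positivity) (by linarith)
    · intro h
      by_cases h' : ∃ n : ℕ, z = (d n, 1 / ((n : ℝ) + 1))
      · exact Or.inr h'
      · left
        have h2 : ∀ N : ℕ, z ∈ Q ×ˢ Icc (0 : ℝ) (1 / ((N : ℝ) + 1)) := by
          intro N
          rcases h N with h | ⟨n, -, rfl⟩
          · exact h
          · exact absurd ⟨n, rfl⟩ h'
        refine ⟨(h2 0).1, le_antisymm ?_ (h2 0).2.1⟩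
        exact ge_of_tendsto' tendsto_one_div_add_atTop_nhds_zero_nat (fun N => (h2 N).2.2)
  have h2 : IsClosed Z := by
    rw [h1]
    refine isClosed_iInter fun N => IsClosed.union ?_ ?_
    · exact (isCompact_Q.prod isCompact_Icc).isClosed
    · exact ((finite_Iio N).image _).isClosed
  refine (isCompact_Q.prod (isCompact_Icc (a := (0 : ℝ)) (b := 1))).of_isClosed_subset h2 ?_
  rintro z (h | ⟨n, rfl⟩)
  · exact ⟨h.1, by rw [h.2], by rw [h.2]; norm_num⟩
  · refine ⟨d_mem n, by positivity, ?_⟩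
    rw [div_le_one (by positivity)]
    have : (0 : ℝ) ≤ n := by positivity
    linarith

/-- The parametrisation of the twisted interval bundle. -/
def Φ (z : (ℕ → ℝ) × ℝ) (t : ℝ) : P :=
  (fun ij => z.1 ij.1 * z.1 ij.2, fun j => t * z.1 j, z.2)

theorem continuous_Φ : Continuous fun w : ((ℕ → ℝ) × ℝ) × ℝ => Φ w.1 w.2 := by
  unfold Φ; fun_prop

/-- The space. -/
def A : Set P := {a | ∃ z ∈ Z, ∃ t : ℝ, |t| ≤ 1 ∧ a = Φ z t}

theorem isCompact_A : IsCompact A := by
  have : A = (fun w : ((ℕ → ℝ) × ℝ) × ℝ => Φ w.1 w.2) '' (Z ×ˢ Icc (-1) 1) := by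
    ext a
    constructor
    · rintro ⟨z, hz, t, ht, rfl⟩
      exact ⟨(z, t), ⟨hz, abs_le.1 ht⟩, rfl⟩
    · rintro ⟨⟨z, t⟩, ⟨hz, ht⟩, rfl⟩
      exact ⟨z, hz, t, abs_le.2 ht, rfl⟩
  rw [this]
  exact (isCompact_Z.prod isCompact_Icc).image continuous_Φ

/-- Fibrewise Moebius maps. -/
noncomputable def mob (i : ℕ) (s : ℝ) (a : P) : P :=
  (a.1, fun j => (a.2.1 j + s * a.1 (i, j)) / (1 + s * a.2.1 i), a.2.2)

theorem denom_pos {s t u : ℝ} (hs : |s| ≤ 1 / 2) (ht : |t| ≤ 1) (hu : |u| ≤ 1) :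
    0 < 1 + s * (t * u) := by
  have h1 : |s * (t * u)| ≤ 1 / 2 := by
    rw [abs_mul, abs_mul]
    have : |t| * |u| ≤ 1 := mul_le_one₀ ht (abs_nonneg _) hu
    have h0 : 0 ≤ |t| * |u| := by positivity
    nlinarith [abs_nonneg s]
  have := (abs_le.1 h1).1
  linarith

theorem mob_Φ (i : ℕ) (s : ℝ) (z : (ℕ → ℝ) × ℝ) (t : ℝ) :
    mob i s (Φ z t) = Φ z ((t + s * z.1 i) / (1 + s * (t * z.1 i))) := by
  simp only [mob, Φ, Prod.mk.injEq, true_and, and_true]
  funext j
  ring

theorem mob_bound {s t u : ℝ} (hs : |s| ≤ 1 / 2) (ht : |t| ≤ 1) (hu : |u| ≤ 1) :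
    |(t + s * u) / (1 + s * (t * u))| ≤ 1 := by
  have hpos := denom_pos hs ht hu
  have h1 : |s * u| ≤ 1 := by
    rw [abs_mul]; nlinarith [abs_nonneg s, abs_nonneg u]
  rw [abs_div, abs_of_pos hpos, div_le_one hpos, abs_le]
  obtain ⟨a1, a2⟩ := abs_le.1 h1
  obtain ⟨b1, b2⟩ := abs_le.1 ht
  constructor <;> nlinarith

theorem mob_mem (i : ℕ) {s : ℝ} (hs : |s| ≤ 1 / 2) {a : P} (ha : a ∈ A) : mob i s a ∈ A := by
  obtain ⟨z, hz, t, ht, rfl⟩ := ha
  exact ⟨z, hz, _, mob_bound hs ht (Z_fst hz i), mob_Φ i s z t⟩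

theorem mob_mob (i : ℕ) {s : ℝ} (hs : |s| ≤ 1 / 2) {a : P} (ha : a ∈ A) :
    mob i (-s) (mob i s a) = a := by
  obtain ⟨z, hz, t, ht, rfl⟩ := ha
  rw [mob_Φ, mob_Φ]
  congr 1
  have h1 := denom_pos hs ht (Z_fst hz i)
  have h2 := denom_pos (s := -s) (by simpa using hs) (mob_bound hs ht (Z_fst hz i)) (Z_fst hz i)
  rw [div_eq_iff h2.ne']
  have h3 : (1 + s * (t * z.1 i)) * (1 + s * (t * z.1 i))⁻¹ = 1 := mul_inv_cancel₀ h1.ne'
  rw [div_eq_mul_inv]
  linear_combination (t + s * z.1 i) * h3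

theorem denom_ne (i : ℕ) {s : ℝ} (hs : |s| ≤ 1 / 2) {a : P} (ha : a ∈ A) :
    1 + s * a.2.1 i ≠ 0 := by
  obtain ⟨z, hz, t, ht, rfl⟩ := ha
  exact (denom_pos hs ht (Z_fst hz i)).ne'

theorem continuous_mob (i : ℕ) {Y : Type} [TopologicalSpace Y] (s : Y → ℝ) (hs : Continuous s)
    (hs' : ∀ y, |s y| ≤ 1 / 2) (a : Y → A) (ha : Continuous a) :
    Continuous fun y => (⟨mob i (s y) (a y).1, mob_mem i (hs' y) (a y).2⟩ : A) := by
  refine Continuous.subtype_mk ?_ _
  unfold mob
  refine Continuous.prodMk (by fun_prop) (Continuous.prodMk ?_ (by fun_prop))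
  refine continuous_pi fun j => Continuous.div (by fun_prop) (by fun_prop) ?_
  exact fun y => denom_ne i (hs' y) (a y).2

/-- The Moebius homeomorphisms of `A`. -/
noncomputable def g (i : ℕ) (s : ℝ) (hs : |s| ≤ 1 / 2) : A ≃ₜ A where
  toFun a := ⟨mob i s a.1, mob_mem i hs a.2⟩
  invFun a := ⟨mob i (-s) a.1, mob_mem i (by simpa using hs) a.2⟩
  left_inv a := Subtype.ext (mob_mob i hs a.2)
  right_inv a := Subtype.ext (by
    have := mob_mob i (s := -s) (by simpa using hs) a.2
    simpa using this)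
  continuous_toFun := continuous_mob i (fun _ => s) continuous_const (fun _ => hs) id continuous_id
  continuous_invFun := continuous_mob i (fun _ => -s) continuous_const
    (fun _ => by simpa using hs) id continuous_id

theorem height_countable : (range fun a : A => a.1.2.2).Countable := by
  refine ((countable_range fun n : ℕ => 1 / ((n : ℝ) + 1)).insert 0).mono ?_
  rintro _ ⟨⟨_, z, hz, t, -, rfl⟩, rfl⟩
  rcases hz with h | ⟨n, rfl⟩
  · exact Or.inl h.2
  · exact Or.inr ⟨n, rfl⟩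

theorem fst_of_height (a : A) (n : ℕ) (h : a.1.2.2 = 1 / ((n : ℝ) + 1)) :
    a.1.1 = fun ij => d n ij.1 * d n ij.2 := by
  obtain ⟨_, z, hz, t, ht, rfl⟩ := a
  rcases hz with h' | ⟨m, rfl⟩
  · have : (0 : ℝ) < 1 / ((n : ℝ) + 1) := by positivity
    simp only [Φ] at h
    linarith [h'.2]
  · simp only [Φ] at h
    have h2 : (m : ℝ) + 1 = n + 1 := by
      have := congrArg (fun x : ℝ => x⁻¹) h
      simpa using this
    have h3 : m = n := by exact_mod_cast add_right_cancel h2
    subst h3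
    rfl

theorem fst_preserved (φ : A → A) (hφ : Continuous φ) (h : ∀ a, (φ a).1.2.2 = a.1.2.2) (a : A) :
    (φ a).1.1 = a.1.1 := by
  obtain ⟨_, z, hz, t, ht, rfl⟩ := a
  rcases hz with h' | ⟨m, rfl⟩
  · obtain ⟨x, r⟩ := z
    obtain ⟨hx, hr⟩ := h'
    simp only at hx hr
    subst hr
    obtain ⟨u, hu, hlim⟩ := mem_closure_iff_seq_limit.1 (d_dense hx)
    choose n hn using hu
    have hmem : ∀ k, Φ (u k) t ∈ A := fun k => ⟨u k, Or.inr ⟨n k, (hn k).symm⟩, t, ht, rfl⟩
    have hl : Tendsto (fun k => (⟨Φ (u k) t, hmem k⟩ : A)) atTop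
        (𝓝 ⟨Φ (x, 0) t, (x, 0), Or.inl ⟨hx, rfl⟩, t, ht, rfl⟩) := by
      rw [tendsto_subtype_rng]
      exact (continuous_Φ.tendsto ((x, 0), t)).comp (hlim.prodMk_nhds tendsto_const_nhds)
    have c1 : Continuous fun a : A => (φ a).1.1 := by fun_prop
    have c2 : Continuous fun a : A => a.1.1 := by fun_prop
    refine tendsto_nhds_unique ((c1.tendsto _).comp hl) (((c2.tendsto _).comp hl).congr ?_)
    intro k
    have e : (⟨Φ (u k) t, hmem k⟩ : A).1.2.2 = 1 / ((n k : ℝ) + 1) := by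
      simp only [Φ, ← hn k]
    simp only [Function.comp]
    rw [fst_of_height _ (n k) e, fst_of_height _ (n k) ((h _).trans e)]
  · rw [fst_of_height _ m ((h _).trans rfl)]
    rfl

/-- Embedding of a finite dimensional space in the cube. -/
noncomputable def ex (k : ℕ) (y : Fin (k + 1) → ℝ) : ℕ → ℝ :=
  fun j => if h : j < k + 1 then y ⟨j, h⟩ / (1 + y ⟨j, h⟩ ^ 2) else 0

theorem ex_mem (k : ℕ) (y : Fin (k + 1) → ℝ) : ex k y ∈ Q := by
  intro j
  unfold ex
  split_ifs with h
  · have hpos : 0 < 1 + y ⟨j, h⟩ ^ 2 := by positivity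
    rw [abs_div, abs_of_pos hpos, div_le_one hpos, abs_le]
    constructor <;> nlinarith [sq_nonneg (y ⟨j, h⟩ - 1), sq_nonneg (y ⟨j, h⟩ + 1)]
  · simp

theorem ex_neg (k : ℕ) (y : Fin (k + 1) → ℝ) (j : ℕ) : ex k (-y) j = -ex k y j := by
  unfold ex
  split_ifs with h
  · simp [neg_div]
  · simp

theorem continuous_ex (k : ℕ) : Continuous (ex k) := by
  refine continuous_pi fun j => ?_
  unfold ex
  split_ifs with h
  · exact Continuous.div (by fun_prop) (by fun_prop) (fun y => by positivity)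
  · exact continuous_const

/-- The point of the zero section over `ex k y`. -/
noncomputable def base (k : ℕ) (y : Fin (k + 1) → ℝ) : A :=
  ⟨Φ (ex k y, 0) 0, (ex k y, 0), Or.inl ⟨ex_mem k y, rfl⟩, 0, by simp, rfl⟩

theorem base_neg (k : ℕ) (y : Fin (k + 1) → ℝ) : base k (-y) = base k y := by
  apply Subtype.ext
  simp [base, Φ, ex_neg]

theorem continuous_base (k : ℕ) : Continuous (base k) := by
  refine Continuous.subtype_mk ?_ _
  have := continuous_ex k
  exact continuous_Φ.comp (f := fun y => ((ex k y, (0 : ℝ)), (0 : ℝ))) (by fun_prop)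

theorem common_fixed_point (k : ℕ) (φ : Fin k → A → A) (hφ : ∀ j, Continuous (φ j))
    (h : ∀ j a, (φ j a).1.2.2 = a.1.2.2) :
    ∃ (p : A) (i : ℕ), p.1.2.1 = 0 ∧ p.1.1 (i, i) ≠ 0 ∧ ∀ j, φ j p = p := by
  have hb := continuous_base k
  have he := continuous_ex k
  obtain ⟨y, hy, hf⟩ := Pool.Agent.Lib.BorsukUlam.borsuk_ulam_l1 k
    (fun y j => ∑ i ∈ Finset.range (k + 1), ex k y i * (φ j (base k y)).1.2.1 i)
    (by
      refine Continuous.continuousOn (continuous_pi fun j => ?_)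
      have := hφ j
      fun_prop)
    (by
      intro y _
      funext j
      simp [base_neg, ex_neg])
  obtain ⟨i0, hi0⟩ : ∃ i0, y i0 ≠ 0 := by
    by_contra hcon
    push Not at hcon
    simp [hcon] at hy
  have hx0 : ex k y i0 ≠ 0 := by
    have hpos : 0 < 1 + y i0 ^ 2 := by positivity
    simp [ex, i0.2, hi0, hpos.ne']
  refine ⟨base k y, i0, ?_, ?_, ?_⟩
  · funext j; simp [base, Φ]
  · simpa [base, Φ] using hx0
  · intro j
    have h1 := fst_preserved (φ j) (hφ j) (h j) (base k y)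
    have h2 := h j (base k y)
    have h3 := congrFun hf j
    simp only [Pi.zero_apply] at h3
    generalize φ j (base k y) = q at h1 h2 h3
    obtain ⟨_, z, hz, t, ht, rfl⟩ := q
    have h4 : ∀ a b, z.1 a * z.1 b = ex k y a * ex k y b := fun a b => congrFun h1 (a, b)
    have h5 : t * (ex k y i0 * ∑ i ∈ Finset.range (k + 1), ex k y i ^ 2) = 0 := by
      have : (∑ i ∈ Finset.range (k + 1), ex k y i * (t * z.1 i)) * z.1 i0 = 0 := by
        simp only [Φ] at h3
        rw [h3, zero_mul]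
      rw [← this, Finset.mul_sum, Finset.mul_sum, Finset.sum_mul]
      refine Finset.sum_congr rfl fun i _ => ?_
      have := h4 i i0
      linear_combination (-(t * ex k y i)) * this
    have h6 : 0 < ∑ i ∈ Finset.range (k + 1), ex k y i ^ 2 :=
      Finset.sum_pos' (fun i _ => sq_nonneg _)
        ⟨i0, Finset.mem_range.2 i0.2, by positivity⟩
    have h7 : t = 0 := by
      rcases mul_eq_zero.1 h5 with h | h
      · exact h
      · exact absurd h (mul_ne_zero hx0 h6.ne')
    subst h7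
    apply Subtype.ext
    refine Prod.ext h1 (Prod.ext ?_ h2)
    funext i
    simp [base, Φ]

instance : CompactSpace A := isCompact_iff_compactSpace.1 isCompact_A

/-- A compatible metric on `A`. -/
@[reducible] noncomputable def metricA : MetricSpace A := TopologicalSpace.metrizableSpaceMetric A

theorem main : ∀ S : Finset (A ≃ₜ A),
    (S : Set (A ≃ₜ A)) ⊆ @arcComponent A metricA _ →
      ¬ @arcComponent A metricA _ ⊆
        @closure _ (@unifTop A metricA _) (Subgroup.closure (S : Set (A ≃ₜ A)) : Set (A ≃ₜ A)) := by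
  intro S hS hsub
  let _ : TopologicalSpace (A ≃ₜ A) := @unifTop A metricA _
  have hev : ∀ a : A, Continuous fun φ : A ≃ₜ A => φ a := by
    intro a
    have h1 : Continuous fun f : A ≃ₜ A => (⟨f, f.continuous⟩ : C(A, A)) := continuous_induced_dom
    exact (continuous_eval_const (F := C(A, A)) a).comp h1
  have hheight : ∀ φ ∈ @arcComponent A metricA _, ∀ a : A, (φ a).1.2.2 = a.1.2.2 := by
    rintro φ (rfl | ⟨γ, hγ, h0, h1⟩) a
    · rfl
    · have hc : Continuous fun s => (γ s a).1.2.2 := by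
        have := (hev a).comp hγ.continuous
        have c2 : Continuous fun a : A => a.1.2.2 := by fun_prop
        exact c2.comp this
      have hsub : (range fun s => (γ s a).1.2.2).Subsingleton :=
        height_countable.isTotallyDisconnected _ (by rintro _ ⟨s, rfl⟩; exact ⟨_, rfl⟩)
          (isPreconnected_range hc)
      have := hsub ⟨1, rfl⟩ ⟨0, rfl⟩
      simpa [h0, h1] using this
  obtain ⟨p, i, hp0, hpi, hfix⟩ := common_fixed_point S.card
    (fun j => (S.equivFin.symm j).1) (fun j => (S.equivFin.symm j).1.continuous)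
    (fun j => hheight _ (hS (S.equivFin.symm j).2))
  have hcl : closure (Subgroup.closure (S : Set (A ≃ₜ A)) : Set (A ≃ₜ A)) ⊆ {φ | φ p = p} := by
    refine closure_minimal ?_ (isClosed_eq (hev p) continuous_const)
    intro φ hφ
    induction hφ using Subgroup.closure_induction with
    | mem φ hφ =>
      have := hfix (S.equivFin ⟨φ, hφ⟩)
      simpa using this
    | one => rfl
    | mul a b _ _ ha hb =>
      simp only [mem_ofPred_eq] at ha hb ⊢
      rw [Homeomorph.mul_apply, hb, ha]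
    | inv a _ ha =>
      simp only [mem_ofPred_eq] at ha ⊢
      rw [Homeomorph.inv_apply]
      exact a.symm_apply_eq.2 ha.symm
  have hs : ∀ s : unitInterval, |(s : ℝ) / 2| ≤ 1 / 2 := by
    intro s
    rw [abs_of_nonneg (by have := s.2.1; positivity)]
    have := s.2.2
    linarith
  let γ : unitInterval → (A ≃ₜ A) := fun s => g i (s / 2) (hs s)
  have hγp : ∀ s, (γ s p).1.2.1 i = s / 2 * p.1.1 (i, i) := by
    intro s
    change (p.1.2.1 i + s / 2 * p.1.1 (i, i)) / (1 + s / 2 * p.1.2.1 i) = _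
    simp [hp0]
  have hγc : Continuous γ := by
    refine continuous_induced_rng.2 (ContinuousMap.continuous_of_continuous_uncurry _ ?_)
    exact continuous_mob i (fun w : unitInterval × A => (w.1 : ℝ) / 2) (by fun_prop)
      (fun w => hs w.1) (fun w => w.2) continuous_snd
  have hγi : Function.Injective γ := by
    intro s s' h
    have := hγp s
    rw [h, hγp s'] at this
    have h2 := mul_right_cancel₀ hpi this
    exact Subtype.ext (by linarith)
  have : T2Space (A ≃ₜ A) := by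
    refine T2Space.of_injective_continuous
      (f := fun f : A ≃ₜ A => (⟨f, f.continuous⟩ : C(A, A))) ?_ continuous_induced_dom
    intro f f' h
    ext1 a
    exact congrArg (fun F : C(A, A) => F a) h
  have hmem : γ 1 ∈ @arcComponent A metricA _ := by
    refine Or.inr ⟨γ, (hγc.isClosedEmbedding hγi).isEmbedding, ?_, rfl⟩
    ext1 a
    apply Subtype.ext
    change mob i ((0 : ℝ) / 2) a.1 = a.1
    simp [mob]
  have h1 := hcl (hsub hmem)
  simp only [mem_ofPred_eq] at h1
  have h2 := hγp 1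
  rw [h1, hp0] at h2
  simp [hpi] at h2

end Pool.Agent.Work.MP_f4f44f_al
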